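import Mathlib
import Pool.Agent.MP_f91556_lc.AP.Defs
import Pool.Agent.MP_f91556_lc.AP.Top

/-!
For `d` polynomial in `m`, one program multiplies every `m × m` submatrix of the Fourier matrix
by every vector, up to an error `‖v‖₁ / m ^ κ` in each entry, in time `m ^ (2 - δ)`, computing
with integers of size polynomial in `m` only.
-/

namespace Pool.Agent.Results.MP_f91556_lc.ApproxSubquadratic

open Pool.Agent.MP_f91556_lc.AP

theorem result (c κ : ℕ) :
    ∃ (P : St) (o : ℕ) (δ : ℝ) (K m₀ : ℕ), 0 < δ ∧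
      ∀ m d : ℕ, m₀ ≤ m → d ≤ m ^ c → ∀ (R C : Fin m → Fin d) (v : Fin m → ℂ) (ω : ℂ) (M : Mem),
        ω = Complex.exp (-2 * Real.pi * Complex.I / d) →
        M = P.run ω (fun _ => 0) (init m d R C v) →
        (M.time : ℝ) ≤ (m : ℝ) ^ (2 - δ) ∧ M.word ≤ m ^ K ∧
        ∀ r : Fin m, ‖M.Z o r 0 0 - ∑ k : Fin m, v k * ω ^ ((R r : ℕ) * (C k : ℕ))‖ ≤
          (∑ k : Fin m, ‖v k‖) / (m : ℝ) ^ κ :=
  main c κ

end Pool.Agent.Results.MP_f91556_lc.ApproxSubquadratic
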