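import Mathlib
import Pool.Agent.MP_f91556_lc.Defs
import Pool.Agent.MP_f91556_lc.Main

/-!
Lower bound for multiplying a worst-case Fourier submatrix by a vector.
With `k = m`: for every `m ≥ 2` and every `d ≥ m ^ (10 m)` some `m × m` submatrix needs
`m ^ 2 / 8` arithmetic operations, whatever the control, the constants and the tests.
-/

namespace Pool.Agent.Results.MP_f91556_lc.LowerBound

open Pool.Agent.MP_f91556_lc

theorem result (m k d : ℕ) (hm : 2 ≤ m) (hk : 1 ≤ k) (hkm : k ≤ m) (hd : m ^ (10 * k) ≤ d) :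
    ∃ R C : Finset (ZMod d), R.card = m ∧ C.card = m ∧
      ∀ (σ : Type) (act : σ → Control σ (C ⊕ ℕ) R) (start : σ) (s : ℕ),
        (∀ v : C → ℂ, ∃ n ≤ s, Runs act start (Sum.elim v 0) (fourierMul d R C v) n) →
        k * m ≤ 8 * s :=
  main_bound m k d hm hk hkm hd

end Pool.Agent.Results.MP_f91556_lc.LowerBound
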